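import Pool.Agent.R681.DS.L

/-!
# Infinite strategies: the product inequality
-/

namespace Pool.Agent.R681.DS

open Finset

/-- An infinite-length strategy, given by its successive cut points. -/
def IsInf (c : ℕ → ℝ) : Prop := (∀ i, 0 < c i ∧ c i < 1) ∧ Function.Injective c

lemma IsInf.strat {c : ℕ → ℝ} (h : IsInf c) (n : ℕ) : IsStrategy n c :=
  ⟨fun i _ => h.1 i, fun _ _ _ _ hij => h.2 hij⟩

lemma ratio_le {c : ℕ → ℝ} {n t : ℕ} (ht : 1 ≤ t) (htn : t ≤ n) {a b a' b' : ℝ}
    (h1 : IsInterval (endpts c t) a b) (h2 : IsInterval (endpts c t) a' b') :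
    b - a ≤ discS n c * (b' - a') := by
  have h3 : (b - a) / (b' - a') ≤ discS n c :=
    le_csSup (ratios_finite n c).bddAbove ⟨t, ht, htn, a, b, a', b', h1, h2, rfl⟩
  have h4 : 0 < b' - a' := by linarith [h2.2.2.1]
  rwa [div_le_iff₀ h4] at h3

lemma one_le_discS {c : ℕ → ℝ} {n : ℕ} (hn : 1 ≤ n) : 1 ≤ discS n c := by
  obtain ⟨b, hb⟩ := exists_next _ (mem_endpts_one c 1) 0 (mem_endpts_zero c 1) (by norm_num)
  have := ratio_le (c := c) (n := n) le_rfl hn hb hb
  have h0 : 0 < b - 0 := by linarith [hb.2.2.1]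
  nlinarith

lemma discS_mono {c : ℕ → ℝ} {n n' : ℕ} (hn : 1 ≤ n) (h : n ≤ n') : discS n c ≤ discS n' c := by
  apply csSup_le_csSup (ratios_finite n' c).bddAbove
  · obtain ⟨b, hb⟩ := exists_next _ (mem_endpts_one c 1) 0 (mem_endpts_zero c 1) (by norm_num)
    exact ⟨_, 1, le_rfl, hn, 0, b, 0, b, hb, hb, rfl⟩
  · rintro r ⟨t, h1, h2, rest⟩
    exact ⟨t, h1, h2.trans h, rest⟩

/-- the product inequality -/
theorem prod_ge {c : ℕ → ℝ} {N : ℕ} (hc : IsStrategy N c) (hN : 1 ≤ N) :
    (2:ℝ) ^ (N - (N / 2 + 1)) ≤ ∏ n ∈ Ioc (N / 2) N, discS n c := by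
  choose M hM0 hMle hMex using exists_longest c
  have hstep : ∀ t, 1 ≤ t → t + 1 ≤ N → 2 * M (t + 1) ≤ discS (t + 1) c * M t := by
    intro t ht htN
    have hm := hc.1 (t - 1) (by omega)
    obtain ⟨a, b, hab, hac, hcb⟩ := exists_around (endpts c t) (mem_endpts_zero _ _)
      (mem_endpts_one _ _) (c (t - 1)) hm.1 hm.2 (not_mem_endpts hc ht htN)
    have hs := endpts_succ c t ht
    have hl : IsInterval (endpts c (t + 1)) a (c (t - 1)) := by
      rw [hs]
      refine ⟨mem_insert_of_mem hab.1, mem_insert_self _ _, hac, ?_⟩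
      intro x hx ⟨h1, h2⟩
      rcases mem_insert.1 hx with rfl | hx
      · linarith
      · exact hab.2.2.2 x hx ⟨h1, by linarith⟩
    have hr : IsInterval (endpts c (t + 1)) (c (t - 1)) b := by
      rw [hs]
      refine ⟨mem_insert_self _ _, mem_insert_of_mem hab.2.1, hcb, ?_⟩
      intro x hx ⟨h1, h2⟩
      rcases mem_insert.1 hx with rfl | hx
      · linarith
      · exact hab.2.2.2 x hx ⟨by linarith, h2⟩
    obtain ⟨a1, b1, hab1, h1⟩ := hMex (t + 1)
    have e1 := ratio_le (c := c) (n := t + 1) (by omega) le_rfl hab1 hl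
    have e2 := ratio_le (c := c) (n := t + 1) (by omega) le_rfl hab1 hr
    have e3 := hMle t a b hab
    have e4 := one_le_discS (c := c) (n := t + 1) (by omega)
    nlinarith
  set s := N / 2 + 1 with hs
  have hs1 : 1 ≤ s := by omega
  have hsN : s ≤ N := by omega
  have hprod : ∀ k, s + k ≤ N → 2 ^ k * M (s + k) ≤ (∏ n ∈ Ioc s (s + k), discS n c) * M s := by
    intro k
    induction k with
    | zero => intro _; simp
    | succ k ih =>
      intro hk
      have h1 := ih (by omega)
      have h2 := hstep (s + k) (by omega) (by omega)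
      have h3 : s + (k + 1) = s + k + 1 := by ring
      have h4 : Ioc s (s + k + 1) = insert (s + k + 1) (Ioc s (s + k)) := by
        ext x; simp only [mem_Ioc, mem_insert]; omega
      rw [h3, h4, prod_insert (by simp), pow_succ]
      have h5 : 0 ≤ discS (s + k + 1) c := by
        linarith [one_le_discS (c := c) (n := s + k + 1) (by omega)]
      calc (2:ℝ) ^ k * 2 * M (s + k + 1) = 2 ^ k * (2 * M (s + k + 1)) := by ring
        _ ≤ 2 ^ k * (discS (s + k + 1) c * M (s + k)) := by gcongr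
        _ = discS (s + k + 1) c * (2 ^ k * M (s + k)) := by ring
        _ ≤ discS (s + k + 1) c * ((∏ n ∈ Ioc s (s + k), discS n c) * M s) := by gcongr
        _ = _ := by ring
  have hex : ∃ a b, IsInterval (endpts c s) a b ∧ b - a ≤ M N := by
    by_contra hcon
    push Not at hcon
    have h1 := longs_card_eq hc (M N) s hs1 hsN hcon
    have h2 := longs_card_mono hc (M N) s hs1 (N - s) (by omega)
    have h3 : s + (N - s) = N := by omega
    rw [h3] at h2
    have h4 := longs_card_zero c (M N) N (hMle N)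
    omega
  obtain ⟨a, b, hab, hle⟩ := hex
  obtain ⟨a1, b1, hab1, h1⟩ := hMex s
  have hD1 := one_le_discS (c := c) (n := s) hs1
  have h5 : M s ≤ discS s c * M N := by
    have := ratio_le (c := c) (n := s) hs1 le_rfl hab1 hab
    rw [h1] at this
    calc M s ≤ discS s c * (b - a) := this
      _ ≤ discS s c * M N := by gcongr
  have h6 := hprod (N - s) (by omega)
  have h7 : s + (N - s) = N := by omega
  rw [h7] at h6
  have h8 : Ioc (N / 2) N = insert s (Ioc s N) := by
    ext x; simp only [mem_Ioc, mem_insert]; omega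
  rw [h8, prod_insert (by simp)]
  have h9 := hM0 s
  have h10 : 2 ^ (N - s) * M s ≤ discS s c * (∏ n ∈ Ioc s N, discS n c) * M s := by
    calc 2 ^ (N - s) * M s ≤ 2 ^ (N - s) * (discS s c * M N) := by gcongr
      _ = discS s c * (2 ^ (N - s) * M N) := by ring
      _ ≤ discS s c * ((∏ n ∈ Ioc s N, discS n c) * M s) := by gcongr
      _ = _ := by ring
  exact le_of_mul_le_mul_right h10 h9

/-- the sum inequality -/
theorem sum_le {c : ℕ → ℝ} (hc : IsInf c) (N : ℕ) (hN : 1 ≤ N) :
    ∑ n ∈ Ioc (N / 2) N, (2 - discS n c) ≤ 2 * Real.log 2 := by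
  have h1 := prod_ge (hc.strat N) hN
  have hpos : ∀ n ∈ Ioc (N / 2) N, 0 < discS n c := by
    intro n hn
    have := (mem_Ioc.1 hn).1
    linarith [one_le_discS (c := c) (n := n) (by omega)]
  have h2 : Real.log ((2:ℝ) ^ (N - (N / 2 + 1))) ≤ ∑ n ∈ Ioc (N / 2) N, Real.log (discS n c) := by
    rw [← Real.log_prod (fun n hn => (hpos n hn).ne')]
    exact Real.log_le_log (by positivity) h1
  rw [Real.log_pow] at h2
  have h3 : ∀ n ∈ Ioc (N / 2) N, Real.log (discS n c) ≤ Real.log 2 - (2 - discS n c) / 2 := by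
    intro n hn
    have h4 := hpos n hn
    have h5 := Real.log_le_sub_one_of_pos (x := discS n c / 2) (by positivity)
    rw [Real.log_div h4.ne' (by norm_num)] at h5
    linarith
  have h6 := sum_le_sum h3
  rw [sum_sub_distrib, sum_const, Nat.card_Ioc, nsmul_eq_mul, ← sum_div] at h6
  have h7 : ((N - N / 2 : ℕ) : ℝ) = ((N - (N / 2 + 1) : ℕ) : ℝ) + 1 := by
    have : N - N / 2 = (N - (N / 2 + 1)) + 1 := by omega
    rw [this]; push_cast; ring
  rw [h7] at h6
  nlinarith

end Pool.Agent.R681.DS
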