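import Pool.Agent.R681.DS.A

/-!
# Infinite strategies: asymptotic consequences
-/

namespace Pool.Agent.R681.DS

open Finset

/-- the optimal value for length `n` -/
noncomputable def ub (n : ℕ) : ℝ := (2:ℝ) ^ (1 - 1 / (⌈(n:ℝ) / 2⌉₊ : ℝ))

lemma two_sub_ub (n : ℕ) (hn : 1 ≤ n) : 4 * Real.log 2 / n - 5 / (n:ℝ) ^ 2 ≤ 2 - ub n := by
  have hnR : (1:ℝ) ≤ n := by exact_mod_cast hn
  have hl0 := Real.log_pos (x := 2) (by norm_num)
  have hl1 := Real.log_two_lt_d9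
  have hl2 := Real.log_two_gt_d9
  set h : ℝ := (⌈(n:ℝ) / 2⌉₊ : ℝ) with hh
  have hh0 : 0 < h := by
    rw [hh]; exact_mod_cast Nat.ceil_pos.2 (by linarith)
  have hh1 : h ≤ (n + 1) / 2 := by
    rw [hh]
    have hle : ⌈(n:ℝ) / 2⌉₊ ≤ (n + 1) / 2 := by
      rw [Nat.ceil_le]
      have : n ≤ 2 * ((n + 1) / 2) := by omega
      have h2 : (n:ℝ) ≤ 2 * (((n + 1) / 2 : ℕ) : ℝ) := by exact_mod_cast this
      linarith
    have h3 : (((n + 1) / 2 : ℕ) : ℝ) ≤ ((n + 1 : ℕ) : ℝ) / 2 := Nat.cast_div_le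
    have h4 : (⌈(n:ℝ) / 2⌉₊ : ℝ) ≤ (((n + 1) / 2 : ℕ) : ℝ) := by exact_mod_cast hle
    push_cast at h3
    linarith
  set z : ℝ := 2 * Real.log 2 / (n + 1) with hz
  have hz0 : 0 ≤ z := by positivity
  have hzy : z ≤ Real.log 2 / h := by
    rw [hz, div_le_div_iff₀ (by positivity) hh0]
    nlinarith
  have hub : ub n = 2 * Real.exp (-(Real.log 2 / h)) := by
    unfold ub
    rw [Real.rpow_sub (by norm_num), Real.rpow_one, Real.rpow_def_of_pos (by norm_num),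
      Real.exp_neg, mul_one_div]
    rfl
  have h1 : Real.exp (-(Real.log 2 / h)) ≤ Real.exp (-z) := Real.exp_le_exp.2 (by linarith)
  -- `exp (-z) ≤ 1 - z + z ^ 2 / 2`
  have h2 : Real.exp (-z) ≤ 1 - z + z ^ 2 / 2 := by
    have hq := Real.quadratic_le_exp_of_nonneg hz0
    rw [Real.exp_neg]
    have hp : 0 < 1 + z + z ^ 2 / 2 := by positivity
    have h3 : (Real.exp z)⁻¹ ≤ (1 + z + z ^ 2 / 2)⁻¹ := by gcongr
    refine h3.trans ?_
    rw [inv_le_iff_one_le_mul₀ hp]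
    nlinarith [pow_nonneg hz0 4]
  have h3 : 2 * z - z ^ 2 ≤ 2 - ub n := by rw [hub]; linarith
  refine le_trans ?_ h3
  rw [hz]
  have hn1 : (0:ℝ) < n + 1 := by positivity
  have hn0 : (0:ℝ) < n := by positivity
  have e1 : 4 * Real.log 2 / n = 2 * (2 * Real.log 2 / (n + 1)) + 4 * Real.log 2 / (n * (n + 1)) := by
    field_simp
    ring
  rw [e1]
  have e2 : 4 * Real.log 2 / (n * (n + 1)) ≤ 3 / (n:ℝ) ^ 2 := by
    rw [div_le_div_iff₀ (by positivity) (by positivity)]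
    nlinarith [mul_pos hn0 hn0]
  have e3 : (2 * Real.log 2 / ((n:ℝ) + 1)) ^ 2 ≤ 2 / (n:ℝ) ^ 2 := by
    rw [div_pow, div_le_div_iff₀ (by positivity) (by positivity)]
    have : (2 * Real.log 2) ^ 2 ≤ 2 := by nlinarith
    nlinarith [mul_pos hn0 hn0, sq_nonneg (n:ℝ)]
  have e4 : 5 / (n:ℝ) ^ 2 = 3 / (n:ℝ) ^ 2 + 2 / (n:ℝ) ^ 2 := by rw [← add_div]; norm_num
  linarith

lemma tele_log (N : ℕ) : ∑ n ∈ Ioc (N / 2) N, (Real.log (n + 1) - Real.log n) =
    Real.log (N + 1) - Real.log ((N / 2 : ℕ) + 1) := by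
  have key : ∀ a k : ℕ, ∑ n ∈ Ioc a (a + k), (Real.log (n + 1) - Real.log n) =
      Real.log ((a + k : ℕ) + 1) - Real.log ((a:ℝ) + 1) := by
    intro a k
    induction k with
    | zero => simp
    | succ k ih =>
      have h4 : Ioc a (a + (k + 1)) = insert (a + (k + 1)) (Ioc a (a + k)) := by
        ext x; simp only [mem_Ioc, mem_insert]; omega
      rw [h4, sum_insert (by simp), ih]
      push_cast
      ring_nf
  have := key (N / 2) (N - N / 2)
  have e : N / 2 + (N - N / 2) = N := by omega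
  rw [e] at this
  exact this

lemma tele_log' (N : ℕ) : ∑ n ∈ Ioc (N / 2) N, (Real.log n - Real.log ((n:ℝ) - 1)) =
    Real.log N - Real.log ((N / 2 : ℕ) : ℝ) := by
  have key : ∀ a k : ℕ, ∑ n ∈ Ioc a (a + k), (Real.log n - Real.log ((n:ℝ) - 1)) =
      Real.log ((a + k : ℕ) : ℝ) - Real.log (a:ℝ) := by
    intro a k
    induction k with
    | zero => simp
    | succ k ih =>
      have h4 : Ioc a (a + (k + 1)) = insert (a + (k + 1)) (Ioc a (a + k)) := by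
        ext x; simp only [mem_Ioc, mem_insert]; omega
      rw [h4, sum_insert (by simp), ih]
      push_cast
      ring_nf
  have := key (N / 2) (N - N / 2)
  have e : N / 2 + (N - N / 2) = N := by omega
  rw [e] at this
  exact this

lemma harm_lower (N : ℕ) : Real.log 2 - 1 / (N + 1) ≤ ∑ n ∈ Ioc (N / 2) N, 1 / (n:ℝ) := by
  have h1 : ∑ n ∈ Ioc (N / 2) N, (Real.log (n + 1) - Real.log n) ≤
      ∑ n ∈ Ioc (N / 2) N, 1 / (n:ℝ) := by
    refine sum_le_sum fun n hn => ?_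
    have hn0 : (0:ℝ) < n := by
      have := (mem_Ioc.1 hn).1
      have : 0 < n := by omega
      exact_mod_cast this
    rw [← Real.log_div (by positivity) hn0.ne']
    have := Real.log_le_sub_one_of_pos (x := ((n:ℝ) + 1) / n) (by positivity)
    have e : ((n:ℝ) + 1) / n - 1 = 1 / n := by field_simp; ring
    linarith
  rw [tele_log] at h1
  have h2 : Real.log ((N / 2 : ℕ) + 1) ≤ Real.log (((N:ℝ) + 2) / 2) := by
    apply Real.log_le_log (by positivity)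
    have : ((N / 2 : ℕ) : ℝ) ≤ (N:ℝ) / 2 := Nat.cast_div_le
    linarith
  rw [Real.log_div (by positivity) (by norm_num)] at h2
  have h3 : Real.log ((N:ℝ) + 2) - Real.log (N + 1) ≤ 1 / (N + 1) := by
    rw [← Real.log_div (by positivity) (by positivity)]
    have := Real.log_le_sub_one_of_pos (x := ((N:ℝ) + 2) / (N + 1)) (by positivity)
    have e : ((N:ℝ) + 2) / (N + 1) - 1 = 1 / (N + 1) := by field_simp; ring
    linarith
  linarith

lemma harm_upper (N : ℕ) (hN : 3 ≤ N) :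
    ∑ n ∈ Ioc (N / 2) N, 1 / (n:ℝ) ≤ Real.log 2 + 1 / (N - 1) := by
  have h1 : ∑ n ∈ Ioc (N / 2) N, 1 / (n:ℝ) ≤
      ∑ n ∈ Ioc (N / 2) N, (Real.log n - Real.log ((n:ℝ) - 1)) := by
    refine sum_le_sum fun n hn => ?_
    have hn1 : (2:ℝ) ≤ n := by
      have := (mem_Ioc.1 hn).1
      have : 2 ≤ n := by omega
      exact_mod_cast this
    have hn2 : (0:ℝ) < (n:ℝ) - 1 := by linarith
    have := Real.log_le_sub_one_of_pos (x := ((n:ℝ) - 1) / n) (by positivity)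
    rw [Real.log_div hn2.ne' (by positivity)] at this
    have e : ((n:ℝ) - 1) / n - 1 = - (1 / n) := by field_simp; ring
    linarith
  rw [tele_log'] at h1
  have hN3 : (3:ℝ) ≤ N := by exact_mod_cast hN
  have h2 : Real.log (((N:ℝ) - 1) / 2) ≤ Real.log ((N / 2 : ℕ) : ℝ) := by
    apply Real.log_le_log (by linarith)
    have h3 : N ≤ 2 * (N / 2) + 1 := by omega
    have h4 : (N:ℝ) ≤ 2 * ((N / 2 : ℕ) : ℝ) + 1 := by exact_mod_cast h3
    linarith
  rw [Real.log_div (by linarith) (by norm_num)] at h2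
  have h3 : Real.log (N:ℝ) - Real.log ((N:ℝ) - 1) ≤ 1 / (N - 1) := by
    rw [← Real.log_div (by positivity) (by linarith)]
    have hN1 : (0:ℝ) < (N:ℝ) - 1 := by linarith
    have := Real.log_le_sub_one_of_pos (x := (N:ℝ) / (N - 1)) (by positivity)
    have e : (N:ℝ) / (N - 1) - 1 = 1 / (N - 1) := by field_simp; ring
    linarith
  linarith

lemma sq_sum (N : ℕ) : ∑ n ∈ Ioc (N / 2) N, 5 / (n:ℝ) ^ 2 ≤ (10:ℝ) / ((N:ℝ) + 1) := by
  have hb : ∀ n ∈ Ioc (N / 2) N, 5 / (n:ℝ) ^ 2 ≤ 20 / ((N:ℝ) + 1) ^ 2 := by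
    intro n hn
    have h1 : N + 1 ≤ 2 * n := by have := (mem_Ioc.1 hn).1; omega
    have h2 : (N:ℝ) + 1 ≤ 2 * n := by exact_mod_cast h1
    have h3 : (0:ℝ) < N + 1 := by positivity
    have h4 : (0:ℝ) < n := by linarith
    rw [div_le_div_iff₀ (by positivity) (by positivity)]
    nlinarith
  refine (sum_le_sum hb).trans ?_
  rw [sum_const, Nat.card_Ioc, nsmul_eq_mul]
  have h1 : 2 * (N - N / 2) ≤ N + 1 := by omega
  have h2 : 2 * ((N - N / 2 : ℕ) : ℝ) ≤ N + 1 := by exact_mod_cast h1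
  have h3 : (0:ℝ) < N + 1 := by positivity
  have e : ((N - N / 2 : ℕ) : ℝ) * (20 / ((N:ℝ) + 1) ^ 2) =
      (2 * ((N - N / 2 : ℕ) : ℝ)) * (10 / ((N:ℝ) + 1) ^ 2) := by ring
  rw [e]
  calc (2 * ((N - N / 2 : ℕ) : ℝ)) * ((10:ℝ) / ((N:ℝ) + 1) ^ 2) ≤ ((N:ℝ) + 1) * (10 / ((N:ℝ) + 1) ^ 2) := by
        gcongr
    _ = (10:ℝ) / ((N:ℝ) + 1) := by field_simp

lemma xfacts {x ε : ℝ} (hε : 0 < ε) (hε2 : ε ≤ 1 / 2) (hx1 : 1 + ε ≤ x) (hx2 : x ≤ 2 - ε) :
    (1 - x / 2) + (1 - 1 / x) / x ≤ 1 ∧ 1 / 2 + ε / 8 ≤ 2 - x / 2 - 1 / x := by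
  have hx0 : 0 < x := by linarith
  constructor
  · have : (1 - 1 / x) / x = (x - 1) / x ^ 2 := by field_simp
    rw [this]
    have h3 : (x - 1) / x ^ 2 ≤ x / 2 := by
      rw [div_le_iff₀ (by positivity)]
      have h4 : (1:ℝ) ≤ x ^ 2 := one_le_pow₀ (by linarith)
      have h5 : x / 2 * 1 ≤ x / 2 * x ^ 2 := by gcongr
      linarith
    linarith
  · have : 2 - x / 2 - 1 / x = 1 / 2 + (x - 1) * (2 - x) / (2 * x) := by field_simp; ring
    rw [this]
    have h3 : ε / 8 ≤ (x - 1) * (2 - x) / (2 * x) := by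
      rw [le_div_iff₀ (by positivity)]
      have h4 : 0 ≤ (x - 1 - ε) * (2 - x - ε) := mul_nonneg (by linarith) (by linarith)
      have h5 : 0 ≤ ε * (1 / 2 - ε) := mul_nonneg hε.le (by linarith)
      have h6 : 0 ≤ ε * (2 - x) := mul_nonneg hε.le (by linarith)
      nlinarith
    linarith

lemma alg (n x q : ℝ) (hn : 0 < n) (hx : 0 < x) :
    (n - x * n / 2) * (q / n - 5 / n ^ 2) + (x * n - n) * (q / (x * n) - 5 / (x * n) ^ 2) =
      q * (2 - x / 2 - 1 / x) - 5 / n * ((1 - x / 2) + (1 - 1 / x) / x) := by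
  field_simp
  ring

variable {d : ℕ → ℝ} (hd : ∀ n, 1 ≤ n → d n ≤ ub n)
include hd

/-- the mean version -/
theorem mean_ge {c : ℕ → ℝ} (hc : IsInf c) (N : ℕ) (hN : 1 ≤ N) :
    Real.log 2 * (4 * Real.log 2 - 2) - 13 / (N + 1) ≤
      ∑ n ∈ Ioc (N / 2) N, (discS n c - d n) := by
  have h1 := sum_le hc N hN
  have h2 : ∑ n ∈ Ioc (N / 2) N, (4 * Real.log 2 / n - 5 / (n:ℝ) ^ 2) ≤
      ∑ n ∈ Ioc (N / 2) N, (2 - d n) := by
    refine sum_le_sum fun n hn => ?_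
    have hn1 : 1 ≤ n := by have := (mem_Ioc.1 hn).1; omega
    linarith [two_sub_ub n hn1, hd n hn1]
  rw [sum_sub_distrib] at h2
  have h3 := harm_lower N
  have h4 := sq_sum N
  have h5 : ∑ n ∈ Ioc (N / 2) N, 4 * Real.log 2 / (n:ℝ) =
      4 * Real.log 2 * ∑ n ∈ Ioc (N / 2) N, 1 / (n:ℝ) := by
    rw [mul_sum]; refine sum_congr rfl fun n _ => by ring
  rw [h5] at h2
  have h6 : ∑ n ∈ Ioc (N / 2) N, (discS n c - d n) =
      ∑ n ∈ Ioc (N / 2) N, (2 - d n) - ∑ n ∈ Ioc (N / 2) N, (2 - discS n c) := by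
    rw [← sum_sub_distrib]; refine sum_congr rfl fun n _ => by ring
  rw [h6]
  have hl0 := Real.log_pos (x := 2) (by norm_num)
  have hl1 := Real.log_two_lt_d9
  have h7 : 4 * Real.log 2 * (Real.log 2 - 1 / ((N:ℝ) + 1)) ≤
      4 * Real.log 2 * ∑ n ∈ Ioc (N / 2) N, 1 / (n:ℝ) := by gcongr
  have h8 : (0:ℝ) < 1 / ((N:ℝ) + 1) := by positivity
  have e1 : (13:ℝ) / ((N:ℝ) + 1) = 13 * (1 / ((N:ℝ) + 1)) := by ring
  have e2 : (10:ℝ) / ((N:ℝ) + 1) = 10 * (1 / ((N:ℝ) + 1)) := by ring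
  rw [e1]
  rw [e2] at h4
  nlinarith

/-- every dyadic block contains a good index -/
theorem exists_good {ε : ℝ} (hε : 0 < ε) : ∃ N₀ : ℕ, ∀ N ≥ N₀, ∀ c : ℕ → ℝ, IsInf c →
    ∃ n ∈ Ioc (N / 2) N, 4 * Real.log 2 - 2 - ε ≤ n * (discS n c - d n) := by
  obtain ⟨K, hK'⟩ := exists_nat_gt (30 / ε + 30)
  have hK : 30 / ε < K := by linarith
  have hK30 : (30:ℝ) < K := by
    have : 0 < 30 / ε := by positivity
    linarith
  refine ⟨max 3 (K + 1), fun N hN c hc => ?_⟩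
  have hN3 : 3 ≤ N := le_of_max_le_left hN
  have hNK : K + 1 ≤ N := le_of_max_le_right hN
  by_contra hcon
  push Not at hcon
  have hl0 := Real.log_pos (x := 2) (by norm_num)
  have hl1 := Real.log_two_lt_d9
  have hl2 := Real.log_two_gt_d9
  set κ := 4 * Real.log 2 - 2 - ε with hκ
  have hN1 : (1:ℝ) ≤ N := by exact_mod_cast (by omega : 1 ≤ N)
  have hmean := mean_ge hd hc N (by omega)
  have hup : ∑ n ∈ Ioc (N / 2) N, (discS n c - d n) ≤ κ * ∑ n ∈ Ioc (N / 2) N, 1 / (n:ℝ) := by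
    rw [mul_sum]
    refine sum_le_sum fun n hn => ?_
    have hn0 : (0:ℝ) < n := by
      have := (mem_Ioc.1 hn).1
      have : 0 < n := by omega
      exact_mod_cast this
    have := hcon n hn
    rw [mul_one_div, le_div_iff₀ hn0]
    linarith
  have hh1 := harm_lower N
  have hh2 := harm_upper N hN3
  have hKN : (K:ℝ) + 1 ≤ N := by exact_mod_cast hNK
  have hNpos : (0:ℝ) < (N:ℝ) - 1 := by
    have : (3:ℝ) ≤ N := by exact_mod_cast hN3
    linarith
  have hεN : 30 * (1 / ((N:ℝ) - 1)) < ε := by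
    rw [mul_one_div, div_lt_iff₀ hNpos]
    rw [div_lt_iff₀ hε] at hK
    nlinarith
  have hinv : 1 / ((N:ℝ) + 1) ≤ 1 / ((N:ℝ) - 1) := by
    apply one_div_le_one_div_of_le hNpos; linarith
  have hinv0 : 0 < 1 / ((N:ℝ) - 1) := by positivity
  have e1 : (13:ℝ) / ((N:ℝ) + 1) = 13 * (1 / ((N:ℝ) + 1)) := by ring
  rw [e1] at hmean
  set w := 1 / ((N:ℝ) - 1) with hw
  set v := 1 / ((N:ℝ) + 1) with hv
  set H := ∑ n ∈ Ioc (N / 2) N, 1 / (n:ℝ) with hH
  rcases le_or_gt 0 κ with hk | hk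
  · have h1 : κ * H ≤ κ * (Real.log 2 + w) := by gcongr
    have h2 : κ ≤ 1 := by rw [hκ]; linarith
    have h3 : κ * w ≤ 1 * w := by gcongr
    nlinarith
  · have hH0 : 0 ≤ H := sum_nonneg fun n _ => by positivity
    have h1 : κ * H ≤ 0 := by nlinarith
    have h2 : (0.5:ℝ) < Real.log 2 * (4 * Real.log 2 - 2) := by nlinarith
    have h4 : 13 * v < 0.5 := by
      rw [hv, mul_one_div, div_lt_iff₀ (by positivity)]
      linarith
    linarith

omit hd in
lemma pair_sum {c : ℕ → ℝ} (hc : IsInf c) {n n' : ℕ} (hn : 1 ≤ n) (h : n ≤ n') (h2 : n' < 2 * n) :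
    ((n - n' / 2 : ℕ) : ℝ) * (2 - discS n c) + ((n' - n : ℕ) : ℝ) * (2 - discS n' c) ≤
      2 * Real.log 2 := by
  have h1 := sum_le hc n' (by omega)
  have hsplit : Ioc (n' / 2) n' = Ioc (n' / 2) n ∪ Ioc n n' := by
    ext x; simp only [mem_Ioc, mem_union]; omega
  have hdis : Disjoint (Ioc (n' / 2) n) (Ioc n n') := by
    rw [disjoint_left]; intro x hx hx'
    have := (mem_Ioc.1 hx).2
    have := (mem_Ioc.1 hx').1
    omega
  rw [hsplit, sum_union hdis] at h1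
  have h3 : ∑ t ∈ Ioc (n' / 2) n, (2 - discS n c) ≤ ∑ t ∈ Ioc (n' / 2) n, (2 - discS t c) := by
    refine sum_le_sum fun t ht => ?_
    have := mem_Ioc.1 ht
    linarith [discS_mono (c := c) (n := t) (n' := n) (by omega) this.2]
  have h4 : ∑ t ∈ Ioc n n', (2 - discS n' c) ≤ ∑ t ∈ Ioc n n', (2 - discS t c) := by
    refine sum_le_sum fun t ht => ?_
    have := mem_Ioc.1 ht
    linarith [discS_mono (c := c) (n := t) (n' := n') (by omega) this.2]
  rw [sum_const, Nat.card_Ioc, nsmul_eq_mul] at h3 h4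
  linarith

/-- no two scales can both be nearly optimal -/
theorem pair_ge {c : ℕ → ℝ} (hc : IsInf c) {ε : ℝ} (hε : 0 < ε) (hε2 : ε ≤ 1 / 2) {n n' : ℕ}
    (hn : 25 / ε ≤ n) (h1 : (1 + ε) * n ≤ n') (h2 : (n':ℝ) ≤ (2 - ε) * n) :
    ε / 4 ≤ n * (discS n c - d n) ∨ ε / 4 ≤ n' * (discS n' c - d n') := by
  by_contra hcon
  push Not at hcon
  obtain ⟨hc1, hc2⟩ := hcon
  have hl1 := Real.log_two_lt_d9
  have hl2 := Real.log_two_gt_d9
  have hn50 : (50:ℝ) ≤ n := by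
    have : (50:ℝ) ≤ 25 / ε := by rw [le_div_iff₀ hε]; linarith
    linarith
  have hn0 : (0:ℝ) < n := by linarith
  have hnn : 1 ≤ n := by
    have : (1:ℝ) ≤ n := by linarith
    exact_mod_cast this
  have hlt : n < n' := by
    have : (n:ℝ) < n' := by nlinarith
    exact_mod_cast this
  have hlt2 : n' < 2 * n := by
    have : (n':ℝ) < 2 * n := by nlinarith
    exact_mod_cast this
  have hn'0 : (0:ℝ) < n' := by
    have : 0 < n' := by omega
    exact_mod_cast this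
  have hp := pair_sum hc hnn hlt.le hlt2
  have a1 := two_sub_ub n hnn
  have a2 := two_sub_ub n' (by omega)
  have b1 := hd n hnn
  have b2 := hd n' (by omega)
  -- lower bounds of `2 - disc`
  have g1 : (4 * Real.log 2 - ε / 4) / n - 5 / (n:ℝ) ^ 2 ≤ 2 - discS n c := by
    have : discS n c - d n ≤ (ε / 4) / n := by rw [le_div_iff₀ hn0]; linarith
    have e : (4 * Real.log 2 - ε / 4) / (n:ℝ) = 4 * Real.log 2 / n - (ε / 4) / n := by ring
    rw [e]; linarith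
  have g2 : (4 * Real.log 2 - ε / 4) / n' - 5 / (n':ℝ) ^ 2 ≤ 2 - discS n' c := by
    have : discS n' c - d n' ≤ (ε / 4) / n' := by rw [le_div_iff₀ hn'0]; linarith
    have e : (4 * Real.log 2 - ε / 4) / (n':ℝ) = 4 * Real.log 2 / n' - (ε / 4) / n' := by ring
    rw [e]; linarith
  have pos1 : 0 ≤ (4 * Real.log 2 - ε / 4) / n - 5 / (n:ℝ) ^ 2 := by
    rw [sub_nonneg, div_le_div_iff₀ (by positivity) hn0]
    nlinarith
  have c1 : (n:ℝ) - n' / 2 ≤ ((n - n' / 2 : ℕ) : ℝ) := by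
    have : 2 * n ≤ 2 * (n - n' / 2) + n' := by omega
    have h3 : 2 * (n:ℝ) ≤ 2 * ((n - n' / 2 : ℕ) : ℝ) + n' := by exact_mod_cast this
    linarith
  have c2 : ((n' - n : ℕ) : ℝ) = (n':ℝ) - n := by
    rw [Nat.cast_sub hlt.le]
  rw [c2] at hp
  have hA : 0 ≤ (n:ℝ) - n' / 2 := by nlinarith
  have hB : 0 ≤ (n':ℝ) - n := by nlinarith
  have k1 : ((n:ℝ) - n' / 2) * ((4 * Real.log 2 - ε / 4) / n - 5 / (n:ℝ) ^ 2) ≤
      ((n - n' / 2 : ℕ) : ℝ) * (2 - discS n c) := by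
    apply mul_le_mul c1 g1 pos1 (by positivity)
  have k2 : ((n':ℝ) - n) * ((4 * Real.log 2 - ε / 4) / n' - 5 / (n':ℝ) ^ 2) ≤
      ((n':ℝ) - n) * (2 - discS n' c) := mul_le_mul_of_nonneg_left g2 hB
  have k3 := (add_le_add k1 k2).trans hp
  -- normalise with `x = n' / n`
  set x : ℝ := (n':ℝ) / n with hx
  have hx1 : 1 + ε ≤ x := by rw [hx, le_div_iff₀ hn0]; exact h1
  have hx2 : x ≤ 2 - ε := by rw [hx, div_le_iff₀ hn0]; exact h2
  have hx0 : 0 < x := by linarith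
  have hn'x : (n':ℝ) = x * n := by rw [hx]; field_simp
  set q := 4 * Real.log 2 - ε / 4 with hq
  have hq0 : 0 < q := by rw [hq]; linarith
  rw [hn'x, alg (n:ℝ) x q hn0 hx0] at k3
  obtain ⟨m1, m2⟩ := xfacts hε hε2 hx1 hx2
  have m3 : 5 / (n:ℝ) ≤ ε / 5 := by
    rw [div_le_div_iff₀ hn0 (by norm_num)]
    rw [div_le_iff₀ hε] at hn
    linarith
  have m4 : 5 / (n:ℝ) * ((1 - x / 2) + (1 - 1 / x) / x) ≤ 5 / n * 1 := by gcongr
  have m5 : q * (1 / 2 + ε / 8) ≤ q * (2 - x / 2 - 1 / x) := by gcongr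
  have m6 : q * (1 / 2 + ε / 8) - ε / 5 ≤ 2 * Real.log 2 := by linarith
  rw [hq] at m6
  nlinarith

/-- a block contains few nearly optimal lengths -/
theorem block_card {c : ℕ → ℝ} (hc : IsInf c) {ε : ℝ} (hε : 0 < ε) (hε2 : ε ≤ 1 / 2) {N : ℕ}
    (hN : 50 / ε ≤ N) :
    (((Ioc (N / 2) N).filter fun n : ℕ => (n:ℝ) * (discS n c - d n) < ε / 4).card : ℝ) ≤
      3 / 2 * ε * N + 2 := by
  set S := (Ioc (N / 2) N).filter fun n : ℕ => (n:ℝ) * (discS n c - d n) < ε / 4 with hS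
  have hN0 : (0:ℝ) ≤ N := Nat.cast_nonneg N
  rcases S.eq_empty_or_nonempty with h | h
  · rw [h]; simp only [card_empty, Nat.cast_zero]; positivity
  set b := S.min' h with hb
  have hbS : b ∈ S := min'_mem _ h
  have hbm := mem_filter.1 hbS
  have hb1 := mem_Ioc.1 hbm.1
  have hbN : (N:ℝ) ≤ 2 * b := by
    have : N ≤ 2 * b := by omega
    exact_mod_cast this
  have hbN' : (b:ℝ) ≤ N := by exact_mod_cast hb1.2
  have hb25 : 25 / ε ≤ b := by
    have : 50 / ε = 2 * (25 / ε) := by ring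
    linarith
  have hsub : S ⊆ Ico b (b + ⌈ε * b⌉₊) ∪ Ioc (N - ⌈ε * N / 2⌉₊) N := by
    intro n hn
    have hbn : b ≤ n := min'_le _ _ hn
    have hnm := mem_filter.1 hn
    have hn1 := mem_Ioc.1 hnm.1
    rw [mem_union, mem_Ico, mem_Ioc]
    rcases lt_or_ge (n:ℝ) ((1 + ε) * b) with h1 | h1
    · left
      refine ⟨hbn, ?_⟩
      have h2 := Nat.le_ceil (ε * b)
      have h3 : (n:ℝ) < ((b + ⌈ε * b⌉₊ : ℕ) : ℝ) := by push_cast; linarith
      exact_mod_cast h3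
    · right
      refine ⟨?_, hn1.2⟩
      rcases le_or_gt (n:ℝ) ((2 - ε) * b) with h2 | h2
      · rcases pair_ge hd hc hε hε2 hb25 h1 h2 with h3 | h3
        · exact absurd hbm.2 (not_lt.2 h3)
        · exact absurd hnm.2 (not_lt.2 h3)
      · have h3 := Nat.le_ceil (ε * N / 2)
        have h4 : (N:ℝ) < ((n + ⌈ε * N / 2⌉₊ : ℕ) : ℝ) := by
          push_cast
          nlinarith
        have h5 : N < n + ⌈ε * N / 2⌉₊ := by exact_mod_cast h4
        omega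
  have h1 : (S.card : ℝ) ≤ ((⌈ε * b⌉₊ + ⌈ε * N / 2⌉₊ : ℕ) : ℝ) := by
    have h2 := (card_le_card hsub).trans (card_union_le _ _)
    rw [Nat.card_Ico, Nat.card_Ioc] at h2
    have h3 : S.card ≤ ⌈ε * b⌉₊ + ⌈ε * N / 2⌉₊ := by omega
    exact_mod_cast h3
  have h2 := (Nat.ceil_lt_add_one (show 0 ≤ ε * b by positivity)).le
  have h3 := (Nat.ceil_lt_add_one (show 0 ≤ ε * N / 2 by positivity)).le
  push_cast at h1
  have h4 : ε * b ≤ ε * N := by gcongr
  linarith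

/-- the nearly optimal lengths have small density -/
theorem density {κ : ℝ} (hκ : 0 < κ) (hκ2 : κ ≤ 1 / 8) : ∃ N₀ : ℕ, ∀ N ≥ N₀, ∀ c : ℕ → ℝ,
    IsInf c → (((Ioc 0 N).filter fun n : ℕ => (n:ℝ) * (discS n c - d n) < κ).card : ℝ) ≤
      16 * κ * N := by
  obtain ⟨K, hK⟩ := exists_nat_gt (50 / (4 * κ) + 2 / κ)
  have hK1 : 50 / (4 * κ) < K := by
    have : 0 < 2 / κ := by positivity
    linarith
  have hK2 : 2 / κ < K := by
    have : 0 < 50 / (4 * κ) := by positivity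
    linarith
  have key : ∀ c : ℕ → ℝ, IsInf c → ∀ N : ℕ,
      (((Ioc 0 N).filter fun n : ℕ => (n:ℝ) * (discS n c - d n) < κ).card : ℝ) ≤
        14 * κ * N + K := by
    intro c hc N
    induction N using Nat.strong_induction_on with
    | _ N ih =>
      have hN0 : (0:ℝ) ≤ N := Nat.cast_nonneg N
      rcases Nat.lt_or_ge N K with h | h
      · have h1 : ((Ioc 0 N).filter fun n : ℕ => (n:ℝ) * (discS n c - d n) < κ).card ≤ N := by
          refine (card_filter_le _ _).trans ?_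
          simp
        have h2 : (((Ioc 0 N).filter fun n : ℕ => (n:ℝ) * (discS n c - d n) < κ).card : ℝ) ≤ K := by
          exact_mod_cast h1.trans h.le
        have : 0 ≤ 14 * κ * N := by positivity
        linarith
      · have hKN : (K:ℝ) ≤ N := by exact_mod_cast h
        have hKpos : (0:ℝ) < K := lt_trans (by positivity) hK2
        have hNpos : 0 < N := by
          have : (0:ℝ) < N := by linarith
          exact_mod_cast this
        have h1 := ih (N / 2) (by omega)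
        have h2 := block_card hd hc (ε := 4 * κ) (by positivity) (by linarith) (N := N)
          (by linarith)
        have e : 4 * κ / 4 = κ := by ring
        rw [e] at h2
        have hsplit : Ioc 0 N = Ioc 0 (N / 2) ∪ Ioc (N / 2) N := by
          ext x; simp only [mem_Ioc, mem_union]; omega
        rw [hsplit, filter_union]
        have h3 : ((((Ioc 0 (N / 2)).filter fun n : ℕ => (n:ℝ) * (discS n c - d n) < κ) ∪
            ((Ioc (N / 2) N).filter fun n : ℕ => (n:ℝ) * (discS n c - d n) < κ)).card : ℝ) ≤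
            (((Ioc 0 (N / 2)).filter fun n : ℕ => (n:ℝ) * (discS n c - d n) < κ).card : ℝ) +
            (((Ioc (N / 2) N).filter fun n : ℕ => (n:ℝ) * (discS n c - d n) < κ).card : ℝ) := by
          exact_mod_cast card_union_le _ _
        have h4 : ((N / 2 : ℕ) : ℝ) ≤ (N:ℝ) / 2 := Nat.cast_div_le
        have h5 : 2 ≤ κ * N := by
          rw [div_lt_iff₀ hκ] at hK2
          nlinarith
        have h6 : 14 * κ * ((N / 2 : ℕ) : ℝ) ≤ 14 * κ * ((N:ℝ) / 2) := by gcongr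
        linarith
  obtain ⟨N₀, hN₀⟩ := exists_nat_gt (K / (2 * κ))
  refine ⟨N₀, fun N hN c hc => ?_⟩
  have h1 := key c hc N
  have h2 : (N₀:ℝ) ≤ N := by exact_mod_cast hN
  have h3 : (K:ℝ) ≤ 2 * κ * N := by
    rw [div_lt_iff₀ (by positivity)] at hN₀
    nlinarith
  linarith

end Pool.Agent.R681.DS
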