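import Pool.Agent.R681.DS.B

/-!
# The known upper bound for `disc(n)`
-/

namespace Pool.Agent.R681.DS

open Finset

/-- left endpoints of the intervals of a binary tree of intervals with lengths `X j` -/
noncomputable def LE (X : ℕ → ℝ) (j : ℕ) : ℝ :=
  if j ≤ 1 then 0 else LE X (j / 2) + (if j % 2 = 1 then X (j - 1) else 0)
termination_by j
decreasing_by omega

/-- cut points -/
noncomputable def cut (X : ℕ → ℝ) (i : ℕ) : ℝ := LE X (i + 1) + X (2 * (i + 1))

lemma LE_one (X : ℕ → ℝ) : LE X 1 = 0 := by rw [LE]; simp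

lemma LE_even (X : ℕ → ℝ) (t : ℕ) (ht : 1 ≤ t) : LE X (2 * t) = LE X t := by
  rw [LE, if_neg (by omega)]
  have h1 : 2 * t / 2 = t := by omega
  have h2 : 2 * t % 2 = 0 := by omega
  rw [h1, h2]; simp

lemma LE_odd (X : ℕ → ℝ) (t : ℕ) (ht : 1 ≤ t) : LE X (2 * t + 1) = LE X t + X (2 * t) := by
  rw [LE, if_neg (by omega)]
  have h1 : (2 * t + 1) / 2 = t := by omega
  have h2 : (2 * t + 1) % 2 = 1 := by omega
  rw [h1, h2]; simp

/-- the invariant -/
structure Inv (X : ℕ → ℝ) (t : ℕ) : Prop where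
  i1 : ∀ j, t ≤ j → j < 2 * t → IsInterval (endpts (cut X) t) (LE X j) (LE X j + X j)
  i2 : ∀ a b, IsInterval (endpts (cut X) t) a b → ∃ j, t ≤ j ∧ j < 2 * t ∧ a = LE X j ∧
    b = LE X j + X j
  i3 : ∀ i j, t ≤ i → i < 2 * t → t ≤ j → j < 2 * t → LE X i = LE X j → i = j
  i4 : ∀ x ∈ endpts (cut X) t, 0 ≤ x ∧ x ≤ 1

lemma inv_one (X : ℕ → ℝ) (h1 : X 1 = 1) : Inv X 1 := by
  have hP : endpts (cut X) 1 = {0, 1} := by simp [endpts]
  have hI : IsInterval ({0, 1} : Finset ℝ) 0 1 := by
    refine ⟨by simp, by simp, by norm_num, ?_⟩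
    intro x hx
    simp only [mem_insert, mem_singleton] at hx
    rcases hx with rfl | rfl <;> norm_num
  refine ⟨?_, ?_, ?_, ?_⟩
  · intro j hj hj2
    have : j = 1 := by omega
    subst this
    rw [hP, LE_one, h1, zero_add]
    exact hI
  · intro a b hab
    rw [hP] at hab
    refine ⟨1, le_rfl, by omega, ?_⟩
    rw [LE_one, h1, zero_add]
    have ha := hab.1
    have hb := hab.2.1
    have hlt := hab.2.2.1
    simp only [mem_insert, mem_singleton] at ha hb
    rcases ha with rfl | rfl <;> rcases hb with rfl | rfl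
    · linarith
    · exact ⟨rfl, rfl⟩
    · linarith
    · linarith
  · intro i j _ _ _ _ _; omega
  · intro x hx
    rw [hP] at hx
    simp only [mem_insert, mem_singleton] at hx
    rcases hx with rfl | rfl <;> norm_num

lemma inv_notin {X : ℕ → ℝ} {t : ℕ} (ht : 1 ≤ t) (h : Inv X t)
    (hp : 0 < X (2 * t)) (hp' : 0 < X (2 * t + 1)) (hs : X t = X (2 * t) + X (2 * t + 1)) :
    LE X t < cut X (t - 1) ∧ cut X (t - 1) < LE X t + X t ∧
      cut X (t - 1) ∉ endpts (cut X) t := by
  have e : t - 1 + 1 = t := by omega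
  have hc : cut X (t - 1) = LE X t + X (2 * t) := by unfold cut; rw [e]
  have hI := h.i1 t le_rfl (by omega)
  refine ⟨by rw [hc]; linarith, by rw [hc]; linarith, fun hm => ?_⟩
  exact hI.2.2.2 _ hm ⟨by rw [hc]; linarith, by rw [hc]; linarith⟩

lemma inv_succ {X : ℕ → ℝ} {t : ℕ} (ht : 1 ≤ t) (h : Inv X t)
    (hp : 0 < X (2 * t)) (hp' : 0 < X (2 * t + 1)) (hs : X t = X (2 * t) + X (2 * t + 1)) :
    Inv X (t + 1) := by
  obtain ⟨hup, hpv, hpP⟩ := inv_notin ht h hp hp' hs
  have e : t - 1 + 1 = t := by omega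
  have hc : cut X (t - 1) = LE X t + X (2 * t) := by unfold cut; rw [e]
  set P := endpts (cut X) t with hP
  have hPs : endpts (cut X) (t + 1) = insert (cut X (t - 1)) P := endpts_succ _ t ht
  set p := cut X (t - 1) with hpdef
  have hI : IsInterval P (LE X t) (LE X t + X t) := h.i1 t le_rfl (by omega)
  set u := LE X t with hu
  set v := LE X t + X t with hv
  -- an interval of `P` around `p` is `(u, v)`
  have huniq : ∀ a b, IsInterval P a b → a < p → p < b → a = u := by
    intro a b hab h1 h2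
    rcases lt_trichotomy a u with h3 | h3 | h3
    · exact absurd ⟨h3, by linarith⟩ (hab.2.2.2 u hI.1)
    · exact h3
    · exact absurd ⟨h3, by linarith⟩ (hI.2.2.2 a hab.1)
  have e2t : LE X (2 * t) = u := LE_even X t ht
  have e2t1 : LE X (2 * t + 1) = p := by rw [LE_odd X t ht, hc]
  refine ⟨?_, ?_, ?_, ?_⟩
  · intro j hj hj2
    rw [hPs]
    rcases Nat.lt_or_ge j (2 * t) with h1 | h1
    · have hJ := h.i1 j (by omega) h1
      refine ⟨mem_insert_of_mem hJ.1, mem_insert_of_mem hJ.2.1, hJ.2.2.1, ?_⟩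
      intro x hx ⟨h2, h3⟩
      rcases mem_insert.1 hx with rfl | hx
      · have := huniq _ _ hJ h2 h3
        have := h.i3 j t (by omega) h1 le_rfl (by omega) this
        omega
      · exact hJ.2.2.2 x hx ⟨h2, h3⟩
    · rcases Nat.lt_or_ge (2 * t) j with h2 | h2
      · have : j = 2 * t + 1 := by omega
        subst this
        rw [e2t1]
        have hev : p + X (2 * t + 1) = v := by rw [hc, hv, hs]; ring
        rw [hev]
        refine ⟨mem_insert_self _ _, mem_insert_of_mem hI.2.1, hpv, ?_⟩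
        intro x hx ⟨h3, h4⟩
        rcases mem_insert.1 hx with rfl | hx
        · linarith
        · exact hI.2.2.2 x hx ⟨by linarith, h4⟩
      · have : j = 2 * t := by omega
        subst this
        rw [e2t]
        have hev : u + X (2 * t) = p := by rw [hc]
        rw [hev]
        refine ⟨mem_insert_of_mem hI.1, mem_insert_self _ _, hup, ?_⟩
        intro x hx ⟨h3, h4⟩
        rcases mem_insert.1 hx with rfl | hx
        · linarith
        · exact hI.2.2.2 x hx ⟨h3, by linarith⟩
  · intro a b hab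
    rw [hPs] at hab
    obtain ⟨ha, hb, hlt, hno⟩ := hab
    rcases mem_insert.1 ha with rfl | ha
    · -- `a = p`
      have hbP : b ∈ P := by
        rcases mem_insert.1 hb with rfl | hb
        · exact absurd hlt (lt_irrefl _)
        · exact hb
      have hbv : b = v := by
        rcases lt_trichotomy b v with h3 | h3 | h3
        · exact absurd ⟨by linarith, h3⟩ (hI.2.2.2 b hbP)
        · exact h3
        · exact absurd ⟨hpv, h3⟩ (hno v (mem_insert_of_mem hI.2.1))
      refine ⟨2 * t + 1, by omega, by omega, e2t1.symm, ?_⟩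
      rw [e2t1, hbv, hc, hv, hs]; ring
    · rcases mem_insert.1 hb with rfl | hb
      · have hau : a = u := by
          rcases lt_trichotomy a u with h3 | h3 | h3
          · exact absurd ⟨h3, hup⟩ (hno u (mem_insert_of_mem hI.1))
          · exact h3
          · exact absurd ⟨h3, by linarith⟩ (hI.2.2.2 a ha)
        refine ⟨2 * t, by omega, by omega, by rw [e2t, hau], ?_⟩
        rw [e2t]
        exact hc
      · obtain ⟨j, hj1, hj2, hja, hjb⟩ := h.i2 a b ⟨ha, hb, hlt, fun x hx =>
          hno x (mem_insert_of_mem hx)⟩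
        refine ⟨j, ?_, by omega, hja, hjb⟩
        rcases Nat.lt_or_ge t j with h1 | h1
        · omega
        · have : j = t := by omega
          subst this
          exact absurd ⟨by rw [hja]; exact hup, by rw [hjb]; exact hpv⟩ (hno p (mem_insert_self _ _))
  · have key : ∀ j, t + 1 ≤ j → j < 2 * t → LE X j ∈ P ∧ LE X j ≠ u ∧ LE X j ≠ p := by
      intro j hj hj2
      have hJ := h.i1 j (by omega) hj2
      refine ⟨hJ.1, fun h1 => ?_, fun h1 => hpP (h1 ▸ hJ.1)⟩
      have := h.i3 j t (by omega) hj2 le_rfl (by omega) h1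
      omega
    have hup' : u ≠ p := hup.ne
    intro i j hi hi2 hj hj2 hij
    have ci : (i < 2 * t) ∨ i = 2 * t ∨ i = 2 * t + 1 := by omega
    have cj : (j < 2 * t) ∨ j = 2 * t ∨ j = 2 * t + 1 := by omega
    rcases ci with ci | rfl | rfl <;> rcases cj with cj | rfl | rfl
    · exact h.i3 i j (by omega) ci (by omega) cj hij
    · rw [e2t] at hij; exact absurd hij (key i hi ci).2.1
    · rw [e2t1] at hij; exact absurd hij (key i hi ci).2.2
    · rw [e2t] at hij; exact absurd hij.symm (key j hj cj).2.1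
    · rfl
    · rw [e2t, e2t1] at hij; exact absurd hij hup'
    · rw [e2t1] at hij; exact absurd hij.symm (key j hj cj).2.2
    · rw [e2t, e2t1] at hij; exact absurd hij.symm hup'
    · rfl
  · intro x hx
    rw [hPs] at hx
    rcases mem_insert.1 hx with rfl | hx
    · have h1 := h.i4 u hI.1
      have h2 := h.i4 v hI.2.1
      exact ⟨by linarith [h1.1], by linarith [h2.2]⟩
    · exact h.i4 x hx

/-- a tree of lengths gives a strategy -/
theorem tree_bound {X : ℕ → ℝ} {n : ℕ} (hn : 1 ≤ n) {D : ℝ} (h1 : X 1 = 1)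
    (hpos : ∀ j, 1 ≤ j → j < 2 * n → 0 < X j)
    (hs : ∀ t, 1 ≤ t → t < n → X t = X (2 * t) + X (2 * t + 1))
    (hD : ∀ t, 1 ≤ t → t ≤ n → ∀ i j, t ≤ i → i < 2 * t → t ≤ j → j < 2 * t → X i ≤ D * X j) :
    IsStrategy n (cut X) ∧ discS n (cut X) ≤ D := by
  have hinv : ∀ t, 1 ≤ t → t ≤ n → Inv X t := by
    intro t ht
    induction t, ht using Nat.le_induction with
    | base => intro _; exact inv_one X h1
    | succ t ht ih =>
      intro htn
      exact inv_succ ht (ih (by omega)) (hpos _ (by omega) (by omega))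
        (hpos _ (by omega) (by omega)) (hs t ht (by omega))
  have hnot : ∀ i, i < n - 1 → 0 < cut X i ∧ cut X i < 1 ∧ cut X i ∉ endpts (cut X) (i + 1) := by
    intro i hi
    have hI := hinv (i + 1) (by omega) (by omega)
    obtain ⟨a1, a2, a3⟩ := inv_notin (t := i + 1) (by omega) hI (hpos _ (by omega) (by omega))
      (hpos _ (by omega) (by omega)) (hs (i + 1) (by omega) (by omega))
    have e : i + 1 - 1 = i := by omega
    rw [e] at a1 a2 a3
    have hJ := hI.i1 (i + 1) le_rfl (by omega)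
    have b1 := hI.i4 _ hJ.1
    have b2 := hI.i4 _ hJ.2.1
    exact ⟨by linarith [b1.1], by linarith [b2.2], a3⟩
  refine ⟨⟨fun i hi => ⟨(hnot i hi).1, (hnot i hi).2.1⟩, ?_⟩, ?_⟩
  · have key : ∀ i j, i < j → j < n - 1 → cut X i ≠ cut X j := by
      intro i j hij hj h
      apply (hnot j hj).2.2
      rw [← h]
      simp only [endpts, mem_insert, mem_image, mem_range]
      right; right
      exact ⟨i, by omega, rfl⟩
    intro i hi j hj hij
    rcases lt_trichotomy i j with h | h | h
    · exact absurd hij (key i j h hj)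
    · exact h
    · exact absurd hij.symm (key j i h hi)
  · apply csSup_le
    · obtain ⟨b, hb⟩ := exists_next _ (mem_endpts_one (cut X) 1) 0 (mem_endpts_zero (cut X) 1)
        (by norm_num)
      exact ⟨_, 1, le_rfl, hn, 0, b, 0, b, hb, hb, rfl⟩
    · rintro r ⟨t, ht, htn, a, b, a', b', hab, hab', rfl⟩
      obtain ⟨i, hi1, hi2, rfl, rfl⟩ := (hinv t ht htn).i2 a b hab
      obtain ⟨j, hj1, hj2, rfl, rfl⟩ := (hinv t ht htn).i2 a' b' hab'
      have := hD t ht htn i j hi1 hi2 hj1 hj2
      have hXj : 0 < X j := hpos j (by omega) (by omega)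
      rw [add_sub_cancel_left, add_sub_cancel_left, div_le_iff₀ hXj]
      exact this

/-- the lengths of the optimal strategy, up to a factor -/
noncomputable def xx (m : ℕ) (q : ℝ) (j : ℕ) : ℝ :=
  if h : m ≤ j ∨ j = 0 then (if j < 2 * m then q ^ (j - m) else q ^ (j / 2 - m) / 2)
  else xx m q (2 * j) + xx m q (2 * j + 1)
termination_by 2 * m - j
decreasing_by all_goals omega

section
variable {m : ℕ} {q : ℝ} (hm : 1 ≤ m) (hq0 : 0 < q) (hq1 : q ≤ 1) (hqm : q ^ m = 1 / 2)

omit hm hq0 hq1 hqm in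
lemma xx_mid (j : ℕ) (h1 : m ≤ j) (h2 : j < 2 * m) : xx m q j = q ^ (j - m) := by
  rw [xx, dif_pos (Or.inl h1), if_pos h2]

omit hm hq0 hq1 hqm in
lemma xx_high (j : ℕ) (h2 : 2 * m ≤ j) : xx m q j = q ^ (j / 2 - m) / 2 := by
  rw [xx, dif_pos (Or.inl (by omega)), if_neg (by omega)]

omit hm hq0 hq1 hqm in
lemma xx_low (j : ℕ) (h0 : 1 ≤ j) (h1 : j < m) :
    xx m q j = xx m q (2 * j) + xx m q (2 * j + 1) := by
  rw [xx, dif_neg (by omega)]

include hq0 in
lemma xx_pos (j : ℕ) (h0 : 1 ≤ j) : 0 < xx m q j := by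
  obtain ⟨k, hk⟩ : ∃ k, k = 2 * m - j := ⟨_, rfl⟩
  induction k using Nat.strong_induction_on generalizing j with
  | _ k ih =>
    rcases Nat.lt_or_ge j m with h | h
    · rw [xx_low j h0 h]
      have a1 := ih (2 * m - 2 * j) (by omega) (2 * j) (by omega) rfl
      have a2 := ih (2 * m - (2 * j + 1)) (by omega) (2 * j + 1) (by omega) rfl
      linarith
    · rcases Nat.lt_or_ge j (2 * m) with h2 | h2
      · rw [xx_mid j h h2]; positivity
      · rw [xx_high j h2]; positivity

omit hm hq0 hq1 hqm in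
lemma xx_split (j : ℕ) (h0 : 1 ≤ j) (h1 : j < 2 * m) :
    xx m q j = xx m q (2 * j) + xx m q (2 * j + 1) := by
  rcases Nat.lt_or_ge j m with h | h
  · exact xx_low j h0 h
  · rw [xx_mid j h h1, xx_high (2 * j) (by omega), xx_high (2 * j + 1) (by omega)]
    have e1 : 2 * j / 2 = j := by omega
    have e2 : (2 * j + 1) / 2 = j := by omega
    rw [e1, e2]; ring

include hm hq0 hq1 hqm in
lemma xx_q (j : ℕ) (h0 : 1 ≤ j) (h1 : j < 2 * m - 1) : xx m q (j + 1) ≤ q * xx m q j := by
  obtain ⟨k, hk⟩ : ∃ k, k = 2 * m - j := ⟨_, rfl⟩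
  induction k using Nat.strong_induction_on generalizing j with
  | _ k ih =>
    rcases Nat.lt_or_ge j m with h | h
    · rcases Nat.lt_or_ge (j + 1) m with h2 | h2
      · rw [xx_low j h0 h, xx_low (j + 1) (by omega) h2]
        have a0 := ih (2 * m - 2 * j) (by omega) (2 * j) (by omega) (by omega) rfl
        have a1 := ih (2 * m - (2 * j + 1)) (by omega) (2 * j + 1) (by omega) (by omega) rfl
        have a2 := ih (2 * m - (2 * j + 2)) (by omega) (2 * j + 2) (by omega) (by omega) rfl
        have e1 : 2 * (j + 1) = 2 * j + 1 + 1 := by ring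
        have e2 : 2 * j + 2 = 2 * j + 1 + 1 := by ring
        rw [e2] at a2
        rw [e1]
        have p0 := xx_pos (m := m) hq0 (2 * j) (by omega)
        have p1 := xx_pos (m := m) hq0 (2 * j + 1) (by omega)
        have b1 : xx m q (2 * j + 1 + 1) ≤ q * xx m q (2 * j) := by
          refine a1.trans ?_
          have : xx m q (2 * j + 1) ≤ xx m q (2 * j) := a0.trans (by nlinarith)
          gcongr
        have b2 : xx m q (2 * j + 1 + 1 + 1) ≤ q * xx m q (2 * j + 1) := by
          refine a2.trans ?_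
          have : xx m q (2 * j + 1 + 1) ≤ xx m q (2 * j + 1) := a1.trans (by nlinarith)
          gcongr
        linarith
      · have hj : j + 1 = m := by omega
        rw [xx_low j h0 h, hj, xx_mid m le_rfl (by omega), xx_mid (2 * j) (by omega) (by omega),
          xx_mid (2 * j + 1) (by omega) (by omega)]
        have e1 : 2 * j - m = m - 2 := by omega
        have e2 : 2 * j + 1 - m = m - 1 := by omega
        rw [e1, e2, Nat.sub_self, pow_zero]
        have c1 : q * q ^ (m - 2) = q ^ (m - 1) := by rw [← pow_succ']; congr 1; omega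
        have c2 : q * q ^ (m - 1) = q ^ m := by rw [← pow_succ']; congr 1; omega
        have c3 : q ^ m ≤ q ^ (m - 1) := pow_le_pow_of_le_one hq0.le hq1 (by omega)
        rw [mul_add, c1, c2, hqm]
        rw [hqm] at c3
        linarith
    · rw [xx_mid j h (by omega), xx_mid (j + 1) (by omega) (by omega), ← pow_succ']
      have : j + 1 - m = j - m + 1 := by omega
      rw [this]

include hm hq0 hq1 hqm in
lemma xx_anti (j : ℕ) (h0 : 1 ≤ j) : xx m q (j + 1) ≤ xx m q j := by
  rcases Nat.lt_or_ge j (2 * m - 1) with h | h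
  · have := xx_q hm hq0 hq1 hqm j h0 h
    have p := xx_pos (m := m) hq0 j h0
    nlinarith
  · rw [xx_high (j + 1) (by omega)]
    rcases Nat.lt_or_ge j (2 * m) with h2 | h2
    · have hj : j = 2 * m - 1 := by omega
      rw [xx_mid j (by omega) h2]
      have e1 : (j + 1) / 2 - m = 0 := by omega
      have e2 : j - m = m - 1 := by omega
      rw [e1, e2, pow_zero]
      have c3 : q ^ m ≤ q ^ (m - 1) := pow_le_pow_of_le_one hq0.le hq1 (by omega)
      rw [hqm] at c3
      linarith
    · rw [xx_high j h2]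
      have : q ^ ((j + 1) / 2 - m) ≤ q ^ (j / 2 - m) :=
        pow_le_pow_of_le_one hq0.le hq1 (by omega)
      linarith

include hm hq0 hq1 hqm in
lemma xx_anti' (i j : ℕ) (h0 : 1 ≤ i) (hij : i ≤ j) : xx m q j ≤ xx m q i := by
  induction j, hij using Nat.le_induction with
  | base => exact le_rfl
  | succ j hij ih => exact (xx_anti hm hq0 hq1 hqm j (by omega)).trans ih

include hm hq0 hq1 hqm in
lemma xx_D (t : ℕ) (h0 : 1 ≤ t) (h1 : t ≤ 2 * m) : xx m q t ≤ 2 * q * xx m q (2 * t - 1) := by
  rcases Nat.lt_or_ge t m with h | h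
  · rw [xx_low t h0 h]
    have a0 := xx_anti hm hq0 hq1 hqm (2 * t) (by omega)
    have a1 := xx_q hm hq0 hq1 hqm (2 * t - 1) (by omega) (by omega)
    have e : 2 * t - 1 + 1 = 2 * t := by omega
    rw [e] at a1
    linarith
  · rcases Nat.lt_or_ge m t with h2 | h2
    · rw [xx_high (2 * t - 1) (by omega)]
      have e1 : (2 * t - 1) / 2 - m = t - 1 - m := by omega
      rw [e1]
      have c1 : 2 * q * (q ^ (t - 1 - m) / 2) = q ^ (t - m) := by
        have : t - m = (t - 1 - m) + 1 := by omega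
        rw [this, pow_succ]; ring
      rw [c1]
      rcases Nat.lt_or_ge t (2 * m) with h3 | h3
      · rw [xx_mid t h h3]
      · have ht : t = 2 * m := by omega
        rw [xx_high t h3]
        have e2 : t / 2 - m = 0 := by omega
        have e3 : t - m = m := by omega
        rw [e2, e3, hqm]; norm_num
    · have ht : t = m := by omega
      subst ht
      rw [xx_mid t le_rfl (by omega), xx_mid (2 * t - 1) (by omega) (by omega), Nat.sub_self,
        pow_zero]
      have e1 : 2 * t - 1 - t = t - 1 := by omega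
      rw [e1]
      have c2 : q * q ^ (t - 1) = q ^ t := by rw [← pow_succ']; congr 1; omega
      have : 2 * q * q ^ (t - 1) = 2 * (q * q ^ (t - 1)) := by ring
      rw [this, c2, hqm]; norm_num
end

/-- the known upper bound -/
theorem disc_le_ub (n : ℕ) (hn : 1 ≤ n) : disc n ≤ ub n := by
  set m := ⌈(n:ℝ) / 2⌉₊ with hmdef
  have hnR : (1:ℝ) ≤ n := by exact_mod_cast hn
  have hm : 1 ≤ m := Nat.one_le_iff_ne_zero.2 (Nat.ceil_pos.2 (by linarith)).ne'
  have hnm : n ≤ 2 * m := by
    have := Nat.le_ceil ((n:ℝ) / 2)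
    rw [← hmdef] at this
    have h2 : (n:ℝ) ≤ 2 * m := by linarith
    exact_mod_cast h2
  have hmR : (0:ℝ) < m := by exact_mod_cast hm
  set q : ℝ := (2:ℝ) ^ (-(1 / (m:ℝ))) with hq
  have hq0 : 0 < q := by positivity
  have hq1 : q ≤ 1 := Real.rpow_le_one_of_one_le_of_nonpos (by norm_num) (by
    have : 0 < 1 / (m:ℝ) := by positivity
    linarith)
  have hqm : q ^ m = 1 / 2 := by
    rw [hq, ← Real.rpow_natCast, ← Real.rpow_mul (by norm_num)]
    have : -(1 / (m:ℝ)) * (m:ℝ) = -1 := by field_simp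
    rw [this, Real.rpow_neg_one]; norm_num
  have hub : ub n = 2 * q := by
    unfold ub
    rw [← hmdef, hq, sub_eq_add_neg, Real.rpow_add (by norm_num), Real.rpow_one]
  set T := xx m q 1 with hT
  have hT0 : 0 < T := xx_pos hq0 1 le_rfl
  obtain ⟨hS, hle⟩ := tree_bound (X := fun j => xx m q j / T) (n := n) hn (D := 2 * q)
    (by rw [← hT]; exact div_self hT0.ne')
    (fun j hj _ => div_pos (xx_pos hq0 j hj) hT0)
    (fun t ht htn => by
      beta_reduce
      rw [xx_split t ht (by omega)]; ring)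
    (fun t ht htn i j hi hi2 hj hj2 => by
      beta_reduce
      rw [mul_div_assoc', div_le_div_iff_of_pos_right hT0]
      calc xx m q i ≤ xx m q t := xx_anti' hm hq0 hq1 hqm t i ht hi
        _ ≤ 2 * q * xx m q (2 * t - 1) := xx_D hm hq0 hq1 hqm t ht (by omega)
        _ ≤ 2 * q * xx m q j := by
            have := xx_anti' hm hq0 hq1 hqm j (2 * t - 1) (by omega) (by omega)
            gcongr)
  rw [hub]
  have hbdd : BddBelow {D | ∃ c, IsStrategy n c ∧ D = discS n c} :=
    ⟨1, by rintro D ⟨c, _, rfl⟩; exact one_le_discS hn⟩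
  exact (csInf_le hbdd ⟨_, hS, rfl⟩).trans hle

end Pool.Agent.R681.DS
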